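import Pool.Agent.KakeyaSticky.Main

set_option autoImplicit false

namespace Pool.Agent.Results.MP_a467b6_an.NotSticky

open Pool.Agent.KakeyaSticky

/-- For every `n ≥ 2` there is a Kakeya set in `ℝⁿ` of the least possible Hausdorff dimension `d_n`
which is not `ε`-close to being sticky for any `ε < n - 1`, i.e. every family of lines which
contains a line in each direction and whose lines meet the set in segments of length one has
packing dimension at least `2(n - 1)`, the dimension of the space of all lines. -/
theorem result (n : ℕ) (hn : 2 ≤ n) :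
    ∃ K : Set (EuclideanSpace ℝ (Fin n)), IsKakeya K ∧ dimH K = kakeyaDim n ∧
      ∀ ε : ℝ, ε < (n:ℝ) - 1 → ¬ CloseToSticky K ε := by
  obtain ⟨K, hK, hdim, hL⟩ := main hn
  refine ⟨K, hK, hdim, fun ε hε hsticky => ?_⟩
  obtain ⟨L, h1, h2, h3⟩ := hsticky
  have := hL L h1 h2 _ h3
  linarith

end Pool.Agent.Results.MP_a467b6_an.NotSticky
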